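import Pool.Agent.H951R4.OD.B2
import Pool.Agent.Helper923.HMertens
import Pool.Agent.H370R2.NT
import Pool.Agent.K1H79.Q3.StmA

/-! # Project Q3 (owner helper79): Mertens' theorem for the primes `1` modulo `3`. -/

set_option autoImplicit false

namespace Pool.Agent.K1H4.Q3

open Finset Pool.Agent.H951R4.OD
open ArithmeticFunction (vonMangoldt)

/-- the character modulo `3` -/
noncomputable def ch3 (n : ℕ) : ℝ := if n % 3 = 1 then 1 else if n % 3 = 2 then -1 else 0

lemma ch3_sum (N : ℕ) : ∑ n ∈ range N, ch3 n = if N % 3 = 2 then 1 else 0 := by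
  induction N with
  | zero => simp
  | succ N ih =>
    rw [sum_range_succ, ih]
    unfold ch3
    have h : N % 3 = 0 ∨ N % 3 = 1 ∨ N % 3 = 2 := by omega
    rcases h with h | h | h
    · have h1 : (N + 1) % 3 = 1 := by omega
      simp [h, h1]
    · have h1 : (N + 1) % 3 = 2 := by omega
      simp [h, h1]
    · have h1 : (N + 1) % 3 = 0 := by omega
      simp [h, h1]

lemma ch3_chi : Chi ch3 1 where
  zero := by simp [ch3]
  one := by simp [ch3]
  mul := by
    intro m n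
    unfold ch3
    have h1 : m % 3 = 0 ∨ m % 3 = 1 ∨ m % 3 = 2 := by omega
    have h2 : n % 3 = 0 ∨ n % 3 = 1 ∨ n % 3 = 2 := by omega
    have h3 : (m * n) % 3 = ((m % 3) * (n % 3)) % 3 := Nat.mul_mod m n 3
    rcases h1 with h1 | h1 | h1 <;> rcases h2 with h2 | h2 | h2 <;> rw [h1, h2] at h3 <;>
      simp [h1, h2, h3]
  val := by
    intro n
    unfold ch3
    split_ifs <;> simp
  one_le := le_rfl
  sum := by
    intro N
    rw [ch3_sum]
    split_ifs <;> simp

lemma conv (N : ℕ) : ∑ n ∈ Ioc 0 N, ch3 n * (Real.log n / n) =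
    ∑ d ∈ Ioc 0 N, ch3 d * (vonMangoldt d / d) * ∑ m ∈ Ioc 0 (N / d), ch3 m * (1 / (m : ℝ)) := by
  let a : ArithmeticFunction ℝ := ⟨fun n => ch3 n * (vonMangoldt n / n), by simp⟩
  let b : ArithmeticFunction ℝ := ⟨fun n => ch3 n * (1 / (n : ℝ)), by simp⟩
  have h := ArithmeticFunction.sum_Ioc_mul_eq_sum_sum a b N
  have h2 : ∀ n : ℕ, (a * b) n = ch3 n * (Real.log n / n) := by
    intro n
    rcases Nat.eq_zero_or_pos n with rfl | hn
    · simp
    rw [ArithmeticFunction.mul_apply]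
    have h3 : Real.log n = ∑ p ∈ n.divisorsAntidiagonal, vonMangoldt p.1 := by
      rw [← ArithmeticFunction.vonMangoldt_sum]
      exact (Nat.sum_divisorsAntidiagonal (fun d _ => vonMangoldt d)).symm
    rw [h3, sum_div, mul_sum]
    refine sum_congr rfl fun p hp => ?_
    rw [Nat.mem_divisorsAntidiagonal] at hp
    show ch3 p.1 * (vonMangoldt p.1 / p.1) * (ch3 p.2 * (1 / (p.2 : ℝ))) = _
    rw [← hp.1, ch3_chi.mul]
    have h4 : (p.1 : ℝ) ≠ 0 := by
      intro h0
      have : p.1 = 0 := by exact_mod_cast h0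
      rw [this, zero_mul] at hp
      exact hp.2 hp.1.symm
    have h5 : (p.2 : ℝ) ≠ 0 := by
      intro h0
      have : p.2 = 0 := by exact_mod_cast h0
      rw [this, mul_zero] at hp
      exact hp.2 hp.1.symm
    push_cast
    field_simp
  simp only [h2] at h
  exact h

/-- `∑ χ(n) log n / n` is bounded -/
lemma logsum : ∃ C : ℝ, ∀ N : ℕ, |∑ n ∈ Ioc 0 N, ch3 n * (Real.log n / n)| ≤ C := by
  let w : ℕ → ℝ := fun n => if n = 0 then 0 else Real.log n / n
  have hw0 : ∀ b, 0 ≤ w b := by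
    intro b
    simp only [w]
    split_ifs
    · exact le_rfl
    · positivity
  have hw : ∀ b, 3 + 1 ≤ b → w (b + 1) ≤ w b := by
    intro b hb
    simp only [w, if_neg (show b ≠ 0 by omega), if_neg (show b + 1 ≠ 0 by omega)]
    have h1 : Real.exp 1 ≤ (b : ℝ) := by
      have := Real.exp_one_lt_d9
      have h2 : (4 : ℝ) ≤ b := by exact_mod_cast hb
      linarith
    exact Real.log_div_self_antitoneOn h1 (by
      show Real.exp 1 ≤ ((b + 1 : ℕ) : ℝ)
      push_cast; linarith) (by push_cast; linarith)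
  refine ⟨|∑ n ∈ Ioc 0 1, ch3 n * (Real.log n / n)| + |∑ n ∈ Ioc 0 2, ch3 n * (Real.log n / n)| +
    |∑ n ∈ Ioc 0 3, ch3 n * (Real.log n / n)| + 2 * 1 * w 4, fun N => ?_⟩
  rcases Nat.lt_or_ge N 3 with h | h
  · have h4 := hw0 4
    interval_cases N
    · simp only [Ioc_self, sum_empty, abs_zero]
      positivity
    · have := abs_nonneg (∑ n ∈ Ioc 0 2, ch3 n * (Real.log n / n))
      have := abs_nonneg (∑ n ∈ Ioc 0 3, ch3 n * (Real.log n / n))
      linarith
    · have := abs_nonneg (∑ n ∈ Ioc 0 1, ch3 n * (Real.log n / n))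
      have := abs_nonneg (∑ n ∈ Ioc 0 3, ch3 n * (Real.log n / n))
      linarith
  · have h1 := b2_abel ch3_chi w 3 hw0 hw N
    have h2 : ∑ n ∈ Ioc 0 N, ch3 n * (Real.log n / n) =
        ∑ n ∈ Ioc 0 3, ch3 n * (Real.log n / n) + ∑ b ∈ Ioc 3 N, ch3 b * w b := by
      rw [← sum_Ioc_consecutive _ (Nat.zero_le 3) h]
      congr 1
      refine sum_congr rfl fun b hb => ?_
      simp only [w, if_neg (show b ≠ 0 by have := (mem_Ioc.1 hb).1; omega)]
    rw [h2]
    have h3 := abs_add_le (∑ n ∈ Ioc 0 3, ch3 n * (Real.log n / n)) (∑ b ∈ Ioc 3 N, ch3 b * w b)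
    have := abs_nonneg (∑ n ∈ Ioc 0 1, ch3 n * (Real.log n / n))
    have := abs_nonneg (∑ n ∈ Ioc 0 2, ch3 n * (Real.log n / n))
    linarith

/-- `∑ χ(n) Λ(n) / n` is bounded -/
lemma lamsum : ∃ C : ℝ, ∀ N : ℕ, 1 ≤ N → |∑ d ∈ Ioc 0 N, ch3 d * (vonMangoldt d / d)| ≤ C := by
  obtain ⟨C, hC⟩ := logsum
  obtain ⟨lam, hlam⟩ := b2_lim ch3_chi
  have hpos : 7 / 20 ≤ lam := by
    have h1 := hlam 4
    have h2 : ∑ b ∈ Ioc 0 4, ch3 b * (1 / (b : ℝ)) = 3 / 4 := by
      have : Ioc 0 4 = {1, 2, 3, 4} := by decide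
      rw [this]
      simp [ch3]
      norm_num
    rw [h2] at h1
    have h3 := (abs_le.1 h1).1
    norm_num at h3
    linarith
  refine ⟨20 / 7 * (C + 2 * (Real.log 4 + 4)), fun N hN => ?_⟩
  have hNR : (1 : ℝ) ≤ N := by exact_mod_cast hN
  set L := ∑ d ∈ Ioc 0 N, ch3 d * (vonMangoldt d / d) with hL
  have h1 : |lam * L - ∑ n ∈ Ioc 0 N, ch3 n * (Real.log n / n)| ≤ 2 * (Real.log 4 + 4) := by
    rw [conv, hL, mul_sum, ← sum_sub_distrib]
    have h2 : ∀ d ∈ Ioc 0 N, |lam * (ch3 d * (vonMangoldt d / d)) -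
        ch3 d * (vonMangoldt d / d) * ∑ m ∈ Ioc 0 (N / d), ch3 m * (1 / (m : ℝ))| ≤
          2 / N * vonMangoldt d := by
      intro d hd
      rw [mem_Ioc] at hd
      have hd0 : (0 : ℝ) < d := by exact_mod_cast hd.1
      have h3 := hlam (N / d)
      have h4 : lam * (ch3 d * (vonMangoldt d / d)) -
        ch3 d * (vonMangoldt d / d) * ∑ m ∈ Ioc 0 (N / d), ch3 m * (1 / (m : ℝ)) =
        ch3 d * ((vonMangoldt d / d) * (lam - ∑ m ∈ Ioc 0 (N / d), ch3 m * (1 / (m : ℝ)))) := by ring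
      have hΛ : 0 ≤ vonMangoldt d := ArithmeticFunction.vonMangoldt_nonneg
      rw [h4, abs_mul, abs_mul, abs_of_nonneg (div_nonneg hΛ hd0.le)]
      have h5 : |ch3 d| ≤ 1 := by
        rcases ch3_chi.val d with h | h | h <;> rw [h] <;> simp
      have h6 : (N : ℝ) / d ≤ ((N / d : ℕ) : ℝ) + 1 := by
        have := (Nat.lt_div_mul_add hd.1 (a := N)).le
        rw [div_le_iff₀ hd0]
        have h7 : (N : ℝ) ≤ ((N / d : ℕ) : ℝ) * d + d := by exact_mod_cast this
        linarith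
      have h7 : 2 * 1 * (1 / (((N / d : ℕ) : ℝ) + 1)) ≤ 2 * (d / N) := by
        rw [mul_one]
        apply mul_le_mul_of_nonneg_left _ (by norm_num)
        rw [div_le_div_iff₀ (by positivity) (by positivity)]
        rw [div_le_iff₀ hd0] at h6
        linarith
      calc |ch3 d| * (vonMangoldt d / d * |lam - ∑ m ∈ Ioc 0 (N / d), ch3 m * (1 / (m : ℝ))|)
          ≤ 1 * (vonMangoldt d / d * (2 * (d / N))) := by
            refine mul_le_mul h5 ?_ (by positivity) (by norm_num)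
            exact mul_le_mul_of_nonneg_left (h3.trans h7) (by positivity)
        _ = 2 / N * vonMangoldt d := by field_simp
    calc |∑ d ∈ Ioc 0 N, (lam * (ch3 d * (vonMangoldt d / d)) -
        ch3 d * (vonMangoldt d / d) * ∑ m ∈ Ioc 0 (N / d), ch3 m * (1 / (m : ℝ)))|
        ≤ ∑ d ∈ Ioc 0 N, 2 / N * vonMangoldt d :=
          (abs_sum_le_sum_abs _ _).trans (sum_le_sum h2)
      _ = 2 / N * Chebyshev.psi N := by
          rw [← mul_sum, Chebyshev.psi, Nat.floor_natCast]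
      _ ≤ 2 / N * ((Real.log 4 + 4) * N) :=
          mul_le_mul_of_nonneg_left (Chebyshev.psi_le_const_mul_self (by positivity)) (by positivity)
      _ = 2 * (Real.log 4 + 4) := by field_simp
  have h2 : |lam * L| ≤ C + 2 * (Real.log 4 + 4) := by
    have h3 := hC N
    rw [abs_le] at h1 h3 ⊢
    constructor <;> linarith [h1.1, h1.2, h3.1, h3.2]
  rw [abs_mul, abs_of_pos (by linarith : 0 < lam)] at h2
  have h3 := abs_nonneg L
  nlinarith

theorem t_MER : Pool.Agent.K1H79.Q3.S_MER := by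
  obtain ⟨C₁, h1⟩ := lamsum
  obtain ⟨C₂, h2⟩ := Pool.Agent.Helper923.HMertens.mertens_log
  refine ⟨(C₁ + (6 + C₂) + C₂ + Real.log 3 / 3) / 2, fun Q hQ => ?_⟩
  have hQR : (1 : ℝ) ≤ Q := by exact_mod_cast hQ
  have h3 := H370.nt_mertens_upper Q hQ
  have h4 := abs_le.1 (h2 Q hQ)
  have h5 := abs_le.1 (h1 Q hQ)
  -- prime powers
  have hP : ∀ n ∈ Icc 1 Q, |ch3 n * (vonMangoldt n / n) - (if n.Prime then ch3 n * (Real.log n / n) else 0)|
      ≤ vonMangoldt n / n - (if n.Prime then Real.log n / n else 0) := by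
    intro n hn
    by_cases hp : n.Prime
    · rw [if_pos hp, if_pos hp, ArithmeticFunction.vonMangoldt_apply_prime hp, sub_self, sub_self,
        abs_zero]
    · rw [if_neg hp, if_neg hp, sub_zero, sub_zero, abs_mul]
      have h6 : |ch3 n| ≤ 1 := by
        rcases ch3_chi.val n with h | h | h <;> rw [h] <;> simp
      have h7 : 0 ≤ vonMangoldt n / (n : ℝ) := div_nonneg ArithmeticFunction.vonMangoldt_nonneg (by positivity)
      rw [abs_of_nonneg h7]
      nlinarith
  have hS := (abs_sum_le_sum_abs _ _).trans (sum_le_sum hP)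
  rw [sum_sub_distrib, sum_sub_distrib, ← sum_filter, ← sum_filter] at hS
  have hI : Ioc 0 Q = Icc 1 Q := rfl
  rw [hI] at h5
  have h8 := abs_le.1 hS
  -- combine
  have hterm : ∀ p ∈ (Icc 1 Q).filter Nat.Prime,
      (Real.log p / p + ch3 p * (Real.log p / p)) - (if p = 3 then Real.log 3 / 3 else 0) ≤
        2 * (if p % 3 = 1 then Real.log p / p else 0) := by
    intro p hp
    rw [mem_filter, mem_Icc] at hp
    have hl : 0 ≤ Real.log p / p := by positivity
    by_cases h3p : p = 3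
    · subst h3p
      simp [ch3]
    · rw [if_neg h3p]
      have hm : p % 3 = 1 ∨ p % 3 = 2 := by
        have : p % 3 ≠ 0 := by
          intro h0
          exact h3p ((Nat.prime_dvd_prime_iff_eq Nat.prime_three hp.2).1 (Nat.dvd_of_mod_eq_zero h0)).symm
        omega
      rcases hm with h | h
      · simp [ch3, h]; linarith
      · simp [ch3, h]
  have hT := sum_le_sum hterm
  rw [sum_sub_distrib, sum_add_distrib, ← mul_sum] at hT
  have hT' : ∑ p ∈ (Icc 1 Q).filter Nat.Prime, (if p % 3 = 1 then Real.log p / (p : ℝ) else 0) =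
      ∑ p ∈ (Icc 1 Q).filter (fun a => Nat.Prime a ∧ a % 3 = 1), Real.log p / (p : ℝ) := by
    rw [← sum_filter, filter_filter]
  have h9 : ∑ p ∈ (Icc 1 Q).filter Nat.Prime, (if p = 3 then Real.log 3 / 3 else 0) ≤ Real.log 3 / 3 := by
    rw [← sum_filter, filter_eq']
    split_ifs
    · simp
    · simp only [sum_empty]
      positivity
  have hlog : 0 ≤ Real.log Q := Real.log_nonneg hQR
  rw [hT'] at hT
  have goal : 2 / 5 * Real.log Q - (C₁ + (6 + C₂) + C₂ + Real.log 3 / 3) / 2 ≤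
      ∑ p ∈ (Icc 1 Q).filter (fun a => Nat.Prime a ∧ a % 3 = 1), Real.log p / (p : ℝ) := by
    linarith [h8.1, h8.2, h4.1, h4.2, h5.1, h5.2]
  convert! goal using 2

end Pool.Agent.K1H4.Q3
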